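import Mathlib
import Pool.Agent.Helper499.HC.G04

/-!
# Echelon subgroups and intersections

An echelon subgroup `H` of the free group `F₂` and a subgroup `G` of index two such that
`H ∩ G` is not an echelon subgroup of `G`.
-/

set_option autoImplicit false

namespace Pool.Agent.R764.Echelon

/-- The rank of a subgroup `H` of a free group: the cardinality of a free basis of `H`
(`H` is free by the Nielsen-Schreier theorem). -/
noncomputable def rk {F : Type} [Group F] [IsFreeGroup F] (H : Subgroup F) : Cardinal :=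
  Cardinal.mk (IsFreeGroup.Generators H)

/-- `F_i = ⟨x_1, …, x_i⟩` for the ordered free basis `x_1, …, x_n` of `F` given by `b`
(so `x_{j+1} = b j`). -/
def initial {F : Type} [Group F] {n : ℕ} (b : FreeGroupBasis (Fin n) F) (i : ℕ) : Subgroup F :=
  Subgroup.closure {g | ∃ j : Fin n, (j : ℕ) < i ∧ b j = g}

/-- `H` is in echelon form with respect to the ordered free basis `b` of `F`:
`rk (H ∩ F_i) - rk (H ∩ F_{i-1}) ≤ 1` for `i = 1, …, n`. -/
def EchelonForm {F : Type} [Group F] [IsFreeGroup F] {n : ℕ} (b : FreeGroupBasis (Fin n) F)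
    (H : Subgroup F) : Prop :=
  ∀ i : ℕ, 1 ≤ i → i ≤ n → rk (H ⊓ initial b i) ≤ rk (H ⊓ initial b (i - 1)) + 1

/-- `H` is an echelon subgroup of the free group `F` (of finite rank): it is in echelon form with
respect to some ordered free basis of `F`. -/
def IsEchelon {F : Type} [Group F] [IsFreeGroup F] (H : Subgroup F) : Prop :=
  ∃ (n : ℕ) (b : FreeGroupBasis (Fin n) F), EchelonForm b H

/-! ### Ranks -/

lemma card_pi_le {α β : Type} [Finite α]
    (f : (β → Multiplicative (ZMod 2)) → (α → Multiplicative (ZMod 2)))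
    (hf : Function.Injective f) : Finite β ∧ Nat.card β ≤ Nat.card α := by
  classical
  have : Finite (β → Multiplicative (ZMod 2)) := Finite.of_injective f hf
  have hfin : Finite β := by
    let g : β → (β → Multiplicative (ZMod 2)) :=
      fun b c => if c = b then Multiplicative.ofAdd 1 else 1
    apply Finite.of_injective g
    intro b c hbc
    by_contra hne
    have h1 := congrFun hbc b
    simp only [g, if_true, if_neg hne] at h1
    exact absurd h1 (by decide)
  refine ⟨hfin, ?_⟩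
  have h2 := Nat.card_le_card_of_injective f hf
  have := Fintype.ofFinite α
  have := Fintype.ofFinite β
  rw [Nat.card_pi, Nat.card_pi] at h2
  have h3 : Nat.card (Multiplicative (ZMod 2)) = 2 := by
    rw [Nat.card_eq_fintype_card]; rfl
  simp only [h3, Finset.prod_const, Finset.card_univ] at h2
  rw [Nat.card_eq_fintype_card, Nat.card_eq_fintype_card]
  exact (Nat.pow_le_pow_iff_right (by norm_num)).1 h2

lemma gen_card_le {E : Type} [Group E] [IsFreeGroup E] (k : ℕ)
    (f : FreeGroup (Fin k) →* E) (hf : Function.Surjective f) :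
    Finite (IsFreeGroup.Generators E) ∧ Nat.card (IsFreeGroup.Generators E) ≤ k := by
  have h := card_pi_le (α := Fin k) (β := IsFreeGroup.Generators E)
    (fun c => FreeGroup.lift.symm ((IsFreeGroup.lift c).comp f)) (by
      intro c d hcd
      have h1 : (IsFreeGroup.lift c).comp f = (IsFreeGroup.lift d).comp f :=
        FreeGroup.lift.symm.injective hcd
      have h2 : IsFreeGroup.lift c = IsFreeGroup.lift d := by
        ext z
        obtain ⟨w, rfl⟩ := hf z
        exact DFunLike.congr_fun h1 w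
      exact IsFreeGroup.lift.injective h2)
  simpa using h

lemma rk_le_of_surj {F : Type} [Group F] [IsFreeGroup F] (H : Subgroup F) (k : ℕ)
    (f : FreeGroup (Fin k) →* H) (hf : Function.Surjective f) : rk H ≤ k := by
  obtain ⟨h1, h2⟩ := gen_card_le k f hf
  unfold rk
  rw [← Nat.cast_card]
  exact_mod_cast h2

/-- A subgroup generated by `k` elements has rank at most `k`. -/
lemma rk_closure_le {F : Type} [Group F] [IsFreeGroup F] (k : ℕ) (g : Fin k → F) :
    rk (Subgroup.closure (Set.range g)) ≤ k := by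
  let f : FreeGroup (Fin k) →* Subgroup.closure (Set.range g) :=
    FreeGroup.lift (fun i => ⟨g i, Subgroup.subset_closure ⟨i, rfl⟩⟩)
  apply rk_le_of_surj _ k f
  have h1 : (Subgroup.closure (Set.range g)).subtype.comp f = FreeGroup.lift g := by
    ext i
    simp [f]
  rintro ⟨z, hz⟩
  have h2 : z ∈ (FreeGroup.lift g).range := by
    rw [FreeGroup.range_lift_eq_closure]; exact hz
  obtain ⟨w, hw⟩ := h2
  refine ⟨w, ?_⟩
  apply Subtype.ext
  change ((Subgroup.closure (Set.range g)).subtype.comp f) w = z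
  rw [h1, hw]

lemma rk_ne_zero {F : Type} [Group F] [IsFreeGroup F] {H : Subgroup F} {g : F} (hg : g ∈ H)
    (hg1 : g ≠ 1) : 1 ≤ rk H := by
  unfold rk
  rw [Cardinal.one_le_iff_ne_zero, Cardinal.mk_ne_zero_iff]
  by_contra hne
  rw [not_nonempty_iff] at hne
  have h1 : (IsFreeGroup.toFreeGroup H ⟨g, hg⟩) = 1 := Subsingleton.elim _ _
  have h2 : (⟨g, hg⟩ : H) = 1 := by
    apply (IsFreeGroup.toFreeGroup H).injective
    rw [h1, map_one]
  exact hg1 (congrArg Subtype.val h2)

/-- A commutative subgroup of a free group has rank at most one. -/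
lemma rk_le_one {F : Type} [Group F] [IsFreeGroup F] {H : Subgroup F}
    (hc : ∀ g ∈ H, ∀ h ∈ H, g * h = h * g) : rk H ≤ 1 := by
  unfold rk
  rw [Cardinal.le_one_iff_subsingleton]
  constructor
  intro s t
  by_contra hst
  have h1 : (IsFreeGroup.of s : H) * IsFreeGroup.of t = IsFreeGroup.of t * IsFreeGroup.of s := by
    apply Subtype.ext
    exact hc _ (IsFreeGroup.of s : H).2 _ (IsFreeGroup.of t : H).2
  have h2 : FreeGroup.of s * FreeGroup.of t = FreeGroup.of t * FreeGroup.of s := by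
    apply (IsFreeGroup.mulEquiv H).injective
    rw [map_mul, map_mul]
    exact h1
  classical
  have h3 := congrArg FreeGroup.toWord h2
  have h4 : ∀ a b : IsFreeGroup.Generators H, (FreeGroup.of a * FreeGroup.of b).toWord =
      [(a, true), (b, true)] := by
    intro a b
    have : FreeGroup.of a * FreeGroup.of b = FreeGroup.mk [(a, true), (b, true)] := rfl
    rw [this, FreeGroup.toWord_mk]
    simp [FreeGroup.reduce]
  rw [h4, h4] at h3
  simp at h3
  exact hst h3.1

/-! ### Unipotent matrices -/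

/-- The group of unipotent upper triangular `4 × 4` integer matrices; the coordinates are the
entries `(1,2)`, `(2,3)`, `(3,4)`, `(1,3)`, `(2,4)`, `(1,4)`. -/
@[ext] structure U4 : Type where
  p : ℤ
  q : ℤ
  r : ℤ
  s : ℤ
  t : ℤ
  u : ℤ

instance : Mul U4 := ⟨fun a b => ⟨a.p + b.p, a.q + b.q, a.r + b.r, a.s + b.s + a.p * b.q,
  a.t + b.t + a.q * b.r, a.u + b.u + a.p * b.t + a.s * b.r⟩⟩
instance : One U4 := ⟨⟨0, 0, 0, 0, 0, 0⟩⟩
instance : Inv U4 := ⟨fun a => ⟨-a.p, -a.q, -a.r, -a.s + a.p * a.q, -a.t + a.q * a.r,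
  -a.u + a.p * a.t + a.s * a.r - a.p * a.q * a.r⟩⟩

@[simp] lemma mul_p (a b : U4) : (a * b).p = a.p + b.p := rfl
@[simp] lemma mul_q (a b : U4) : (a * b).q = a.q + b.q := rfl
@[simp] lemma mul_r (a b : U4) : (a * b).r = a.r + b.r := rfl
@[simp] lemma mul_s (a b : U4) : (a * b).s = a.s + b.s + a.p * b.q := rfl
@[simp] lemma mul_t (a b : U4) : (a * b).t = a.t + b.t + a.q * b.r := rfl
@[simp] lemma mul_u (a b : U4) : (a * b).u = a.u + b.u + a.p * b.t + a.s * b.r := rfl
@[simp] lemma one_p : (1 : U4).p = 0 := rfl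
@[simp] lemma one_q : (1 : U4).q = 0 := rfl
@[simp] lemma one_r : (1 : U4).r = 0 := rfl
@[simp] lemma one_s : (1 : U4).s = 0 := rfl
@[simp] lemma one_t : (1 : U4).t = 0 := rfl
@[simp] lemma one_u : (1 : U4).u = 0 := rfl
@[simp] lemma inv_p (a : U4) : (a⁻¹).p = -a.p := rfl
@[simp] lemma inv_q (a : U4) : (a⁻¹).q = -a.q := rfl
@[simp] lemma inv_r (a : U4) : (a⁻¹).r = -a.r := rfl
@[simp] lemma inv_s (a : U4) : (a⁻¹).s = -a.s + a.p * a.q := rfl
@[simp] lemma inv_t (a : U4) : (a⁻¹).t = -a.t + a.q * a.r := rfl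
@[simp] lemma inv_u (a : U4) :
    (a⁻¹).u = -a.u + a.p * a.t + a.s * a.r - a.p * a.q * a.r := rfl

instance : Group U4 := Group.ofLeftAxioms
  (by intro a b c; ext <;> simp <;> ring)
  (by intro a; ext <;> simp)
  (by intro a; ext <;> simp <;> ring)

/-- The central matrix with corner entry `n`. -/
def zz (n : ℤ) : U4 := ⟨0, 0, 0, 0, 0, n⟩

lemma zz_comm (n : ℤ) (g : U4) : zz n * g = g * zz n := by
  ext <;> simp [zz] <;> ring

lemma zz_zpow (n k : ℤ) : (zz n) ^ k = zz (k * n) := by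
  let f : Multiplicative ℤ →* U4 :=
    { toFun := fun k => zz (Multiplicative.toAdd k * n)
      map_one' := by ext <;> simp [zz]
      map_mul' := by intro a b; ext <;> simp [zz]; ring }
  have h := map_zpow f (Multiplicative.ofAdd 1) k
  have h1 : f (Multiplicative.ofAdd 1) = zz n := by
    change zz (1 * n) = zz n
    rw [one_mul]
  rw [← h1, ← h, ← ofAdd_zsmul]
  change zz (_ * n) = _
  simp

/-- The entry `(1,2)` as a homomorphism. -/
def pc : U4 →* Multiplicative ℤ where
  toFun a := Multiplicative.ofAdd a.p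
  map_one' := rfl
  map_mul' _ _ := rfl

lemma p_zpow (g : U4) (k : ℤ) : (g ^ k).p = k * g.p := by
  have h := map_zpow pc g k
  have h2 := congrArg Multiplicative.toAdd h
  rw [toAdd_zpow] at h2
  simpa [pc] using h2

/-- The commutator `x y x⁻¹ y⁻¹`. -/
def com {Γ : Type} [Group Γ] (x y : Γ) : Γ := x * y * x⁻¹ * y⁻¹

/-- The word `[a,[c,a]] [b,[a,b]]`. -/
def W1 {Γ : Type} [Group Γ] (a b c : Γ) : Γ := com a (com c a) * com b (com a b)

/-- The word `[a,[a b a⁻¹,a]] [c,[a,c]]`. -/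
def W2 {Γ : Type} [Group Γ] (a b c : Γ) : Γ := com a (com (a * b * a⁻¹) a) * com c (com a c)

lemma map_com {Γ Δ : Type} [Group Γ] [Group Δ] (f : Γ →* Δ) (a b : Γ) :
    f (com a b) = com (f a) (f b) := by
  simp [com]

lemma map_W1 {Γ Δ : Type} [Group Γ] [Group Δ] (f : Γ →* Δ) (a b c : Γ) :
    f (W1 a b c) = W1 (f a) (f b) (f c) := by
  simp [W1, map_com]

lemma map_W2 {Γ Δ : Type} [Group Γ] [Group Δ] (f : Γ →* Δ) (a b c : Γ) :
    f (W2 a b c) = W2 (f a) (f b) (f c) := by
  simp [W2, map_com]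

lemma com3 (X Y Z : U4) : com X (com Y Z) =
    zz (X.p * (Y.q * Z.r - Z.q * Y.r) - (Y.p * Z.q - Z.p * Y.q) * X.r) := by
  ext <;> simp [com, zz] <;> ring

lemma zz_mul (m n : ℤ) : zz m * zz n = zz (m + n) := by
  ext <;> simp [zz]

lemma W1_U4 (a b c : U4) : W1 a b c =
    zz ((a.p * (c.q * a.r - a.q * c.r) - (c.p * a.q - a.p * c.q) * a.r) +
      (b.p * (a.q * b.r - b.q * a.r) - (a.p * b.q - b.p * a.q) * b.r)) := by
  rw [W1, com3, com3, zz_mul]

lemma W2_U4 (a b c : U4) : W2 a b c =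
    zz ((a.p * (b.q * a.r - a.q * b.r) - (b.p * a.q - a.p * b.q) * a.r) +
      (c.p * (a.q * c.r - c.q * a.r) - (a.p * c.q - c.p * a.q) * c.r)) := by
  rw [W2, com3, com3, zz_mul]
  congr 1
  simp

/-! ### Three elements generating a free group of rank three -/

lemma indep {x y z : U4 × U4} {m n k l : ℤ} (hx : x.1.p ≠ 0 ∨ x.2.p ≠ 0)
    (hy : y = (zz m, zz n)) (hz : z = (zz k, zz l)) (hd : m * l - n * k ≠ 0) {i j h : ℤ}
    (e : x ^ i * y ^ j * z ^ h = 1) : i = 0 ∧ j = 0 ∧ h = 0 := by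
  have h1 : x.1 ^ i * (zz m) ^ j * (zz k) ^ h = 1 := by
    have := congrArg Prod.fst e
    simpa [hy, hz] using this
  have h2 : x.2 ^ i * (zz n) ^ j * (zz l) ^ h = 1 := by
    have := congrArg Prod.snd e
    simpa [hy, hz] using this
  rw [zz_zpow, zz_zpow] at h1 h2
  have hi : i = 0 := by
    have e1 := congrArg U4.p h1
    have e2 := congrArg U4.p h2
    simp only [mul_p, p_zpow, zz, one_p, add_zero] at e1 e2
    rcases hx with hx | hx
    · exact (mul_eq_zero.1 e1).resolve_right hx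
    · exact (mul_eq_zero.1 e2).resolve_right hx
  subst hi
  have e1 := congrArg U4.u h1
  have e2 := congrArg U4.u h2
  simp [zz] at e1 e2
  have hj : j * (m * l - n * k) = 0 := by linear_combination l * e1 - k * e2
  have hh : h * (m * l - n * k) = 0 := by linear_combination m * e2 - n * e1
  exact ⟨rfl, (mul_eq_zero.1 hj).resolve_right hd, (mul_eq_zero.1 hh).resolve_right hd⟩

lemma not_two {E : Type} [Group E] (e0 e1 e2 u v : E) (ρ : E →* U4 × U4)
    (hgen : Subgroup.closure {e0, e1, e2} = ⊤) (huv : Subgroup.closure {u, v} = ⊤)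
    (hx : (ρ e0).1.p ≠ 0 ∨ (ρ e0).2.p ≠ 0) {m n k l : ℤ} (hy : ρ e1 = (zz m, zz n))
    (hz : ρ e2 = (zz k, zz l)) (hd : m * l - n * k ≠ 0) : False := by
  have hcen : ∀ m n : ℤ, ∀ g : U4 × U4, (zz m, zz n) * g = g * (zz m, zz n) := by
    intro m n g
    exact Prod.ext (zz_comm _ _) (zz_comm _ _)
  have hc0 : ∀ g : E, ρ e0 * ρ g = ρ g * ρ e0 := by
    intro g
    have h1 : (⊤ : Subgroup E) ≤ (Subgroup.centralizer {ρ e0}).comap ρ := by
      rw [← hgen, Subgroup.closure_le]
      rintro z (rfl | rfl | rfl)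
      · simp [Subgroup.mem_centralizer_singleton_iff]
      · simp only [SetLike.mem_coe, Subgroup.mem_comap, Subgroup.mem_centralizer_singleton_iff]
        rw [hy, hcen]
      · simp only [SetLike.mem_coe, Subgroup.mem_comap, Subgroup.mem_centralizer_singleton_iff]
        rw [hz, hcen]
    have h2 := h1 (Subgroup.mem_top g)
    rw [Subgroup.mem_comap, Subgroup.mem_centralizer_singleton_iff] at h2
    exact h2.symm
  have hc : ∀ g h : E, ρ g * ρ h = ρ h * ρ g := by
    intro g h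
    have h1 : (⊤ : Subgroup E) ≤ (Subgroup.centralizer {ρ h}).comap ρ := by
      rw [← hgen, Subgroup.closure_le]
      rintro z (rfl | rfl | rfl)
      · simp only [SetLike.mem_coe, Subgroup.mem_comap, Subgroup.mem_centralizer_singleton_iff]
        exact hc0 h
      · simp only [SetLike.mem_coe, Subgroup.mem_comap, Subgroup.mem_centralizer_singleton_iff]
        rw [hy, hcen]
      · simp only [SetLike.mem_coe, Subgroup.mem_comap, Subgroup.mem_centralizer_singleton_iff]
        rw [hz, hcen]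
    have h2 := h1 (Subgroup.mem_top g)
    rw [Subgroup.mem_comap, Subgroup.mem_centralizer_singleton_iff] at h2
    exact h2
  have hUV : Commute (ρ u) (ρ v) := hc u v
  have hex : ∀ g : E, ∃ a b : ℤ, ρ g = (ρ u) ^ a * (ρ v) ^ b := by
    intro g
    have hg : g ∈ Subgroup.closure {u, v} := by rw [huv]; exact Subgroup.mem_top g
    induction hg using Subgroup.closure_induction with
    | mem z hz =>
      rcases hz with rfl | rfl
      · exact ⟨1, 0, by simp⟩
      · exact ⟨0, 1, by simp⟩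
    | one => exact ⟨0, 0, by simp⟩
    | mul a b _ _ ha hb =>
      obtain ⟨a1, a2, ha⟩ := ha
      obtain ⟨b1, b2, hb⟩ := hb
      refine ⟨a1 + b1, a2 + b2, ?_⟩
      rw [map_mul, ha, hb, zpow_add, zpow_add]
      have : ρ v ^ a2 * ρ u ^ b1 = ρ u ^ b1 * ρ v ^ a2 := ((hUV.symm.zpow_zpow a2 b1)).eq
      calc ρ u ^ a1 * ρ v ^ a2 * (ρ u ^ b1 * ρ v ^ b2)
          = ρ u ^ a1 * (ρ v ^ a2 * ρ u ^ b1) * ρ v ^ b2 := by group
        _ = ρ u ^ a1 * (ρ u ^ b1 * ρ v ^ a2) * ρ v ^ b2 := by rw [this]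
        _ = _ := by group
    | inv a _ ha =>
      obtain ⟨a1, a2, ha⟩ := ha
      refine ⟨-a1, -a2, ?_⟩
      rw [map_inv, ha, mul_inv_rev, zpow_neg, zpow_neg]
      exact ((hUV.symm.zpow_zpow a2 a1).inv_inv).eq
  obtain ⟨p0, q0, h0⟩ := hex e0
  obtain ⟨p1, q1, h1⟩ := hex e1
  obtain ⟨p2, q2, h2⟩ := hex e2
  have hpow : ∀ a b c : ℤ, ((ρ u) ^ a * (ρ v) ^ b) ^ c = (ρ u) ^ (a * c) * (ρ v) ^ (b * c) := by
    intro a b c
    rw [(hUV.zpow_zpow a b).mul_zpow, ← zpow_mul, ← zpow_mul]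
  have hadd : ∀ a b c d : ℤ, ((ρ u) ^ a * (ρ v) ^ b) * ((ρ u) ^ c * (ρ v) ^ d) =
      (ρ u) ^ (a + c) * (ρ v) ^ (b + d) := by
    intro a b c d
    rw [zpow_add, zpow_add]
    have : ρ v ^ b * ρ u ^ c = ρ u ^ c * ρ v ^ b := ((hUV.symm.zpow_zpow b c)).eq
    calc ρ u ^ a * ρ v ^ b * (ρ u ^ c * ρ v ^ d)
        = ρ u ^ a * (ρ v ^ b * ρ u ^ c) * ρ v ^ d := by group
      _ = ρ u ^ a * (ρ u ^ c * ρ v ^ b) * ρ v ^ d := by rw [this]
      _ = _ := by group
  have key : ∀ i j h : ℤ, p0 * i + p1 * j + p2 * h = 0 → q0 * i + q1 * j + q2 * h = 0 →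
      i = 0 ∧ j = 0 ∧ h = 0 := by
    intro i j h ha hb
    apply indep hx hy hz hd
    rw [h0, h1, h2, hpow, hpow, hpow, hadd, hadd, ha, hb]
    simp
  obtain ⟨k1, k2, k3⟩ := key (p1 * q2 - p2 * q1) (p2 * q0 - p0 * q2) (p0 * q1 - p1 * q0)
    (by ring) (by ring)
  obtain ⟨k4, k5, -⟩ := key p1 (-p0) 0 (by ring) (by linear_combination -k3)
  obtain ⟨k6, k7, -⟩ := key q1 (-q0) 0 (by linear_combination k3) (by ring)
  have k8 : p0 = 0 := by linarith
  have k9 : q0 = 0 := by linarith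
  obtain ⟨k10, -, -⟩ := key 1 0 0 (by rw [k8]; ring) (by rw [k9]; ring)
  exact one_ne_zero k10

lemma exists_two {E : Type} [Group E] [IsFreeGroup E] (hfin : Finite (IsFreeGroup.Generators E))
    (hcard : Nat.card (IsFreeGroup.Generators E) ≤ 2) :
    ∃ u v : E, Subgroup.closure {u, v} = ⊤ := by
  classical
  have := Fintype.ofFinite (IsFreeGroup.Generators E)
  obtain ⟨emb⟩ : Nonempty (IsFreeGroup.Generators E ↪ Fin 2) := by
    apply Function.Embedding.nonempty_of_card_le
    rw [Nat.card_eq_fintype_card] at hcard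
    simpa using hcard
  let w : Fin 2 → E := fun k => if h : ∃ b, emb b = k then IsFreeGroup.of h.choose else 1
  have hw : ∀ b, w (emb b) = IsFreeGroup.of b := by
    intro b
    have h : ∃ b', emb b' = emb b := ⟨b, rfl⟩
    have h2 : h.choose = b := emb.injective h.choose_spec
    simp only [w, dif_pos h, h2]
  refine ⟨w 0, w 1, ?_⟩
  rw [eq_top_iff]
  have h1 : (⊤ : Subgroup E) = Subgroup.map (IsFreeGroup.mulEquiv E).toMonoidHom ⊤ := by
    rw [← MonoidHom.range_eq_map, eq_comm, MonoidHom.range_eq_top]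
    exact (IsFreeGroup.mulEquiv E).surjective
  rw [h1, ← FreeGroup.closure_range_of, MonoidHom.map_closure, Subgroup.closure_le]
  rintro _ ⟨_, ⟨j, rfl⟩, rfl⟩
  have h2 : (IsFreeGroup.mulEquiv E).toMonoidHom (FreeGroup.of j) = w (emb j) := (hw j).symm
  rw [h2]
  apply Subgroup.subset_closure
  generalize emb j = k
  fin_cases k
  · left; rfl
  · right; rfl

lemma lift_injective {Γ : Type} [Group Γ] [IsFreeGroup Γ] (e : Fin 3 → Γ) (ρ : Γ →* U4 × U4)
    (hx : (ρ (e 0)).1.p ≠ 0 ∨ (ρ (e 0)).2.p ≠ 0) {m n k l : ℤ} (hy : ρ (e 1) = (zz m, zz n))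
    (hz : ρ (e 2) = (zz k, zz l)) (hd : m * l - n * k ≠ 0) :
    Function.Injective (FreeGroup.lift e) := by
  classical
  set E := (FreeGroup.lift e).range with hE
  let f : FreeGroup (Fin 3) →* E := (FreeGroup.lift e).rangeRestrict
  have hf : Function.Surjective f := (FreeGroup.lift e).rangeRestrict_surjective
  obtain ⟨hfin, hle⟩ := gen_card_le 3 f hf
  have hgen : Subgroup.closure {f (FreeGroup.of 0), f (FreeGroup.of 1), f (FreeGroup.of 2)} =
      (⊤ : Subgroup E) := by
    rw [eq_top_iff]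
    have h1 : (⊤ : Subgroup E) = Subgroup.map f ⊤ := by
      rw [← MonoidHom.range_eq_map, eq_comm, MonoidHom.range_eq_top]
      exact hf
    rw [h1, ← FreeGroup.closure_range_of, MonoidHom.map_closure, Subgroup.closure_le]
    rintro _ ⟨_, ⟨j, rfl⟩, rfl⟩
    apply Subgroup.subset_closure
    fin_cases j
    · left; rfl
    · right; left; rfl
    · right; right; rfl
  have hval : ∀ i, ((f (FreeGroup.of i) : E) : Γ) = e i := by
    intro i
    change FreeGroup.lift e (FreeGroup.of i) = e i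
    rw [FreeGroup.lift_apply_of]
  have h3 : ¬ Nat.card (IsFreeGroup.Generators E) ≤ 2 := by
    intro h2
    obtain ⟨u, v, huv⟩ := exists_two hfin h2
    refine not_two _ _ _ u v (ρ.comp E.subtype) hgen huv ?_ (m := m) (n := n) (k := k) (l := l)
      ?_ ?_ hd
    · simp only [MonoidHom.comp_apply, Subgroup.subtype_apply, hval]; exact hx
    · simp only [MonoidHom.comp_apply, Subgroup.subtype_apply, hval]; exact hy
    · simp only [MonoidHom.comp_apply, Subgroup.subtype_apply, hval]; exact hz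
  have hcard : Nat.card (IsFreeGroup.Generators E) = 3 := by omega
  let e' : IsFreeGroup.Generators E ≃ Fin 3 := Finite.equivFinOfCardEq hcard
  let Φ : FreeGroup (Fin 3) →* FreeGroup (Fin 3) :=
    (FreeGroup.freeGroupCongr e').toMonoidHom.comp ((IsFreeGroup.toFreeGroup E).toMonoidHom.comp f)
  have hΦ : Function.Surjective Φ := by
    intro z
    obtain ⟨y, hy⟩ := (FreeGroup.freeGroupCongr e').surjective z
    obtain ⟨x, hx⟩ := (IsFreeGroup.toFreeGroup E).surjective y
    obtain ⟨w, hw⟩ := hf x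
    refine ⟨w, ?_⟩
    change (FreeGroup.freeGroupCongr e') ((IsFreeGroup.toFreeGroup E) (f w)) = z
    rw [hw, hx, hy]
  have hinj := (Pool.Agent.Helper499.HC.free_hopf le_rfl Φ hΦ).1
  intro x y hxy
  apply hinj
  change (FreeGroup.freeGroupCongr e') ((IsFreeGroup.toFreeGroup E) (f x)) =
    (FreeGroup.freeGroupCongr e') ((IsFreeGroup.toFreeGroup E) (f y))
  have : f x = f y := Subtype.ext hxy
  rw [this]

/-! ### The example -/

/-- The free group of rank two. -/
abbrev F2 := FreeGroup (Fin 2)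
/-- The free group of rank three. -/
abbrev P3 := FreeGroup (Fin 3)

/-- `x`. -/
def x : F2 := FreeGroup.of 0
/-- `y`. -/
def y : F2 := FreeGroup.of 1

/-- The homomorphism `F₃ → F₂` sending the basis to `x², y, x y x⁻¹`. -/
def emb : P3 →* F2 := FreeGroup.lift ![x * x, y, x * y * x⁻¹]

/-- The subgroup generated by `x², y, x y x⁻¹`; it has index two. -/
def G : Subgroup F2 := emb.range

/-- The word `w`. -/
def w : F2 := W1 (x * x) y (x * y * x⁻¹)

/-- `⟨x, w⟩`. -/
def H : Subgroup F2 := Subgroup.closure (Set.range ![x, w])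

/-- The permutation `x` acts by. -/
def X : Equiv.Perm (P3 × Bool) where
  toFun p := match p with
    | (p, false) => (FreeGroup.of 0 * p, true)
    | (p, true) => (p, false)
  invFun p := match p with
    | (p, true) => ((FreeGroup.of 0)⁻¹ * p, false)
    | (p, false) => (p, true)
  left_inv := by rintro ⟨p, b⟩; cases b <;> simp
  right_inv := by rintro ⟨p, b⟩; cases b <;> simp

/-- The permutation `y` acts by. -/
def Y : Equiv.Perm (P3 × Bool) where
  toFun p := match p with
    | (p, false) => (FreeGroup.of 1 * p, false)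
    | (p, true) => (FreeGroup.of 2 * p, true)
  invFun p := match p with
    | (p, false) => ((FreeGroup.of 1)⁻¹ * p, false)
    | (p, true) => ((FreeGroup.of 2)⁻¹ * p, true)
  left_inv := by rintro ⟨p, b⟩; cases b <;> simp
  right_inv := by rintro ⟨p, b⟩; cases b <;> simp

/-- The permutation representation. -/
def rho : F2 →* Equiv.Perm (P3 × Bool) := FreeGroup.lift ![X, Y]

lemma rho_x : rho x = X := by simp [rho, x]
lemma rho_y : rho y = Y := by simp [rho, y]

lemma rho_emb (h : P3) : ∀ p : P3, rho (emb h) (p, false) = (h * p, false) := by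
  have hgen : ∀ i : Fin 3, ∀ p : P3, rho (emb (FreeGroup.of i)) (p, false) =
      (FreeGroup.of i * p, false) := by
    intro i p
    have hXinv : X⁻¹ (p, false) = (p, true) := rfl
    fin_cases i
    · have : emb (FreeGroup.of 0) = x * x := by simp [emb]
      change rho (emb (FreeGroup.of 0)) (p, false) = _
      rw [this, map_mul, rho_x, Equiv.Perm.mul_apply]
      rfl
    · have : emb (FreeGroup.of 1) = y := by simp [emb]
      change rho (emb (FreeGroup.of 1)) (p, false) = _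
      rw [this, rho_y]
      rfl
    · have : emb (FreeGroup.of 2) = x * y * x⁻¹ := by simp [emb]
      change rho (emb (FreeGroup.of 2)) (p, false) = _
      rw [this, map_mul, map_mul, map_inv, rho_x, rho_y, Equiv.Perm.mul_apply,
        Equiv.Perm.mul_apply, hXinv]
      rfl
  induction h using FreeGroup.induction_on with
  | C1 => intro p; simp
  | of i => exact hgen i
  | inv_of i _ =>
    intro p
    rw [map_inv, map_inv, Equiv.Perm.inv_eq_iff_eq, hgen i]
    simp
  | mul a b ha hb =>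
    intro p
    rw [map_mul, map_mul, Equiv.Perm.mul_apply, hb, ha, mul_assoc]

lemma emb_injective : Function.Injective emb := by
  rw [injective_iff_map_eq_one]
  intro h hh
  have h1 := rho_emb h 1
  rw [hh, map_one] at h1
  simpa using (congrArg Prod.fst h1).symm

/-- `G` is free on `x², y, x y x⁻¹`. -/
noncomputable def th : P3 ≃* G := MonoidHom.ofInjective emb_injective

lemma th_coe (h : P3) : ((th h : G) : F2) = emb h := rfl

lemma coset {F : Type} [Group F] (S : Subgroup F) (x : F) (hxx : x * x ∈ S)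
    (hn : ∀ s ∈ S, x * s * x⁻¹ ∈ S) (T : Set F) (hT : ∀ t ∈ T, t ∈ S) :
    ∀ g ∈ Subgroup.closure (insert x T), g ∈ S ∨ x⁻¹ * g ∈ S := by
  have hn' : ∀ s ∈ S, x⁻¹ * s * x ∈ S := by
    intro s hs
    have h1 : x⁻¹ * s * x = (x * x)⁻¹ * (x * s * x⁻¹) * (x * x) := by group
    rw [h1]
    exact S.mul_mem (S.mul_mem (S.inv_mem hxx) (hn s hs)) hxx
  intro g hg
  induction hg using Subgroup.closure_induction with
  | mem z hz =>
    rcases hz with rfl | hz
    · right; rw [inv_mul_cancel]; exact S.one_mem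
    · left; exact hT z hz
  | one => left; exact S.one_mem
  | mul a b _ _ ha hb =>
    rcases ha with ha | ha <;> rcases hb with hb | hb
    · left; exact S.mul_mem ha hb
    · right
      have : x⁻¹ * (a * b) = (x⁻¹ * a * x) * (x⁻¹ * b) := by group
      rw [this]; exact S.mul_mem (hn' a ha) hb
    · right
      have : x⁻¹ * (a * b) = (x⁻¹ * a) * b := by group
      rw [this]; exact S.mul_mem ha hb
    · left
      have : a * b = (x * (x⁻¹ * a) * x⁻¹) * (x * x) * (x⁻¹ * b) := by group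
      rw [this]; exact S.mul_mem (S.mul_mem (hn _ ha) hxx) hb
  | inv a _ ha =>
    rcases ha with ha | ha
    · left; exact S.inv_mem ha
    · right
      have : x⁻¹ * a⁻¹ = (x * x)⁻¹ * (x * (x⁻¹ * a)⁻¹ * x⁻¹) := by group
      rw [this]; exact S.mul_mem (S.inv_mem hxx) (hn _ (S.inv_mem ha))

lemma range2 {α : Type} (a b : α) : Set.range ![a, b] = {a, b} := by
  simp [Set.pair_comm]

/-- The parity of the exponent sum of `x`. -/
def eps : F2 →* Multiplicative (ZMod 2) := FreeGroup.lift ![Multiplicative.ofAdd 1, 1]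

lemma eps_x : eps x = Multiplicative.ofAdd 1 := by simp [eps, x]
lemma eps_y : eps y = 1 := by simp [eps, y]

lemma eps_emb (h : P3) : eps (emb h) = 1 := by
  have : eps.comp emb = 1 := by
    ext i
    fin_cases i
    · have : emb (FreeGroup.of 0) = x * x := by simp [emb]
      change eps (emb (FreeGroup.of 0)) = 1
      rw [this, map_mul, eps_x]
      rfl
    · have : emb (FreeGroup.of 1) = y := by simp [emb]
      change eps (emb (FreeGroup.of 1)) = 1
      rw [this, eps_y]
    · have : emb (FreeGroup.of 2) = x * y * x⁻¹ := by simp [emb]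
      change eps (emb (FreeGroup.of 2)) = 1
      rw [this, map_mul, map_mul, map_inv, eps_y]
      simp
  exact DFunLike.congr_fun this h

lemma xx_mem : x * x ∈ G := ⟨FreeGroup.of 0, by simp [emb]⟩
lemma y_mem : y ∈ G := ⟨FreeGroup.of 1, by simp [emb]⟩
lemma c_mem : x * y * x⁻¹ ∈ G := ⟨FreeGroup.of 2, by simp [emb]⟩

/-- Conjugation by `x` on `G`, in terms of the free basis. -/
def cj : P3 →* P3 := FreeGroup.lift
  ![FreeGroup.of 0, FreeGroup.of 2, FreeGroup.of 0 * FreeGroup.of 1 * (FreeGroup.of 0)⁻¹]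

lemma emb_cj (h : P3) : emb (cj h) = x * emb h * x⁻¹ := by
  have : emb.comp cj = (MulAut.conj x).toMonoidHom.comp emb := by
    ext i
    fin_cases i <;> simp [emb, cj] <;> group
  exact DFunLike.congr_fun this h

lemma conj_G (s : F2) (hs : s ∈ G) : x * s * x⁻¹ ∈ G := by
  obtain ⟨h, rfl⟩ := hs
  exact ⟨cj h, emb_cj h⟩

lemma G_eq_ker : G = eps.ker := by
  apply le_antisymm
  · rintro _ ⟨h, rfl⟩
    exact eps_emb h
  · intro g hg
    have htop : g ∈ Subgroup.closure (insert x {y}) := by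
      have h1 : (insert x {y} : Set F2) = Set.range (FreeGroup.of : Fin 2 → F2) := by
        rw [← range2]
        congr 1
        funext i
        fin_cases i <;> rfl
      rw [h1, FreeGroup.closure_range_of]
      exact Subgroup.mem_top g
    rcases coset G x xx_mem conj_G {y} (by rintro t rfl; exact y_mem) g htop with h | h
    · exact h
    · exfalso
      obtain ⟨p, hp⟩ := h
      have h2 := eps_emb p
      rw [hp, map_mul, map_inv, MonoidHom.mem_ker.1 hg, eps_x] at h2
      exact absurd h2 (by decide)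

lemma index_G : G.index = 2 := by
  rw [G_eq_ker, Subgroup.index_ker]
  have h1 : eps.range = ⊤ := by
    rw [eq_top_iff]
    intro z _
    have : ∀ z : Multiplicative (ZMod 2), z = 1 ∨ z = Multiplicative.ofAdd 1 := by decide
    have := this z
    rcases this with rfl | rfl
    · exact ⟨1, map_one _⟩
    · exact ⟨x, eps_x⟩
  rw [h1, Subgroup.card_top, Nat.card_eq_fintype_card]
  rfl

/-- The three free generators of `K`. -/
def kap : P3 →* P3 := FreeGroup.lift ![FreeGroup.of 0,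
  W1 (FreeGroup.of 0) (FreeGroup.of 1) (FreeGroup.of 2),
  W2 (FreeGroup.of 0) (FreeGroup.of 1) (FreeGroup.of 2)]

lemma kap0 : kap (FreeGroup.of 0) = FreeGroup.of 0 := by simp [kap]
lemma kap1 : kap (FreeGroup.of 1) =
    W1 (FreeGroup.of 0) (FreeGroup.of 1) (FreeGroup.of 2) := by simp [kap]
lemma kap2 : kap (FreeGroup.of 2) =
    W2 (FreeGroup.of 0) (FreeGroup.of 1) (FreeGroup.of 2) := by simp [kap]

lemma emb_W1 : emb (W1 (FreeGroup.of 0) (FreeGroup.of 1) (FreeGroup.of 2)) = w := by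
  rw [map_W1]
  simp [emb, w]

lemma cj_W1 : cj (W1 (FreeGroup.of 0) (FreeGroup.of 1) (FreeGroup.of 2)) =
    W2 (FreeGroup.of 0) (FreeGroup.of 1) (FreeGroup.of 2) := by
  rw [map_W1]
  simp [cj, W1, W2]

lemma emb_W2 : emb (W2 (FreeGroup.of 0) (FreeGroup.of 1) (FreeGroup.of 2)) = x * w * x⁻¹ := by
  rw [← cj_W1, emb_cj, emb_W1]

lemma mem_K (g : G) : g ∈ (H ⊓ G).subgroupOf G ↔ ∃ h : P3, th (kap h) = g := by
  constructor
  · intro hg
    have hgH : (g : F2) ∈ H := hg.1
    have hS : ∀ s ∈ (emb.comp kap).range, x * s * x⁻¹ ∈ (emb.comp kap).range := by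
      have hle : (emb.comp kap).range ≤
          ((emb.comp kap).range).comap (MulAut.conj x).toMonoidHom := by
        rw [MonoidHom.range_eq_map, ← FreeGroup.closure_range_of, MonoidHom.map_closure,
          Subgroup.closure_le]
        rintro _ ⟨_, ⟨j, rfl⟩, rfl⟩
        rw [← MonoidHom.map_closure, FreeGroup.closure_range_of, ← MonoidHom.range_eq_map]
        fin_cases j
        · refine ⟨FreeGroup.of 0, ?_⟩
          simp only [MonoidHom.comp_apply]
          change emb (kap (FreeGroup.of 0)) = x * emb (kap (FreeGroup.of 0)) * x⁻¹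
          rw [kap0]
          simp only [emb, FreeGroup.lift_apply_of, Matrix.cons_val_zero]
          group
        · refine ⟨FreeGroup.of 2, ?_⟩
          change emb (kap (FreeGroup.of 2)) = x * emb (kap (FreeGroup.of 1)) * x⁻¹
          rw [kap1, kap2, emb_W1, emb_W2]
        · refine ⟨FreeGroup.of 0 * FreeGroup.of 1 * (FreeGroup.of 0)⁻¹, ?_⟩
          change emb (kap (FreeGroup.of 0 * FreeGroup.of 1 * (FreeGroup.of 0)⁻¹)) =
            x * emb (kap (FreeGroup.of 2)) * x⁻¹
          simp only [map_mul, map_inv, kap0, kap1, kap2, emb_W1, emb_W2]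
          have : emb (FreeGroup.of 0) = x * x := by simp [emb]
          rw [this]
          group
      intro s hs
      exact hle hs
    have h1 := coset (emb.comp kap).range x
      ⟨FreeGroup.of 0, by rw [MonoidHom.comp_apply, kap0]; simp [emb]⟩ hS {w}
      (by rintro t rfl; exact ⟨FreeGroup.of 1, by rw [MonoidHom.comp_apply, kap1, emb_W1]⟩)
      (g : F2) (by unfold H at hgH; rw [range2] at hgH; exact hgH)
    rcases h1 with ⟨h, hh⟩ | ⟨h, hh⟩
    · exact ⟨h, Subtype.ext hh⟩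
    · exfalso
      have h2 : eps (emb (kap h)) = 1 := eps_emb _
      have h3 : emb (kap h) = x⁻¹ * (g : F2) := hh
      have h4 : (g : F2) ∈ eps.ker := by rw [← G_eq_ker]; exact g.2
      rw [h3, map_mul, map_inv, MonoidHom.mem_ker.1 h4, eps_x] at h2
      exact absurd h2 (by decide)
  · rintro ⟨h, rfl⟩
    rw [Subgroup.mem_subgroupOf]
    refine ⟨?_, (th (kap h)).2⟩
    change emb (kap h) ∈ H
    have hle : (emb.comp kap).range ≤ H := by
      rw [MonoidHom.range_eq_map, ← FreeGroup.closure_range_of, MonoidHom.map_closure,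
        Subgroup.closure_le]
      have hx : x ∈ H := Subgroup.subset_closure ⟨0, rfl⟩
      have hw : w ∈ H := Subgroup.subset_closure ⟨1, rfl⟩
      rintro _ ⟨_, ⟨j, rfl⟩, rfl⟩
      fin_cases j
      · change emb (kap (FreeGroup.of 0)) ∈ H
        have : emb (FreeGroup.of 0) = x * x := by simp [emb]
        rw [kap0, this]
        exact H.mul_mem hx hx
      · change emb (kap (FreeGroup.of 1)) ∈ H
        rw [kap1, emb_W1]
        exact hw
      · change emb (kap (FreeGroup.of 2)) ∈ H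
        rw [kap2, emb_W2]
        exact H.mul_mem (H.mul_mem hx hw) (H.inv_mem hx)
    exact hle ⟨h, rfl⟩

/-! ### Exponent sums modulo two -/

/-- First coordinate of the first word. -/
def N1 {R : Type} [CommRing R] (a a' b b' c c' : R) : R :=
  a * (c * a' - a * c') + b * (a * b' - b * a')

/-- First coordinate of the second word. -/
def N2 {R : Type} [CommRing R] (a a' b b' c c' : R) : R :=
  a * (b * a' - a * b') + c * (a * c' - c * a')

/-- The determinant. -/
def DD {R : Type} [CommRing R] (a a' b b' c c' : R) : R :=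
  N1 a a' b b' c c' * N2 a' a b' b c' c - N1 a' a b' b c' c * N2 a a' b b' c c'

lemma zmod_check : ∀ a0 b0 c0 a1 b1 c1 a2 b2 c2 : ZMod 2,
    a0 * b1 * c2 - a0 * c1 * b2 - b0 * a1 * c2 + b0 * c1 * a2 + c0 * a1 * b2 - c0 * b1 * a2 ≠ 0 →
    DD a0 a2 b0 b2 c0 c2 ≠ 0 ∨ DD a1 a2 b1 b2 c1 c2 ≠ 0 ∨
      DD (a0 + a1) a2 (b0 + b1) b2 (c0 + c1) c2 ≠ 0 := by
  unfold DD N1 N2
  decide

/-! ### Homomorphisms given by a basis -/

lemma basis_induction {ι Γ : Type} [Group Γ] (g : FreeGroupBasis ι Γ) {C : Γ → Prop} (h : Γ)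
    (h1 : C 1) (hb : ∀ i, C (g i)) (hi : ∀ a, C a → C a⁻¹)
    (hm : ∀ a b, C a → C b → C (a * b)) : C h := by
  obtain ⟨f, rfl⟩ := g.repr.symm.surjective h
  induction f using FreeGroup.induction_on with
  | C1 => rw [map_one]; exact h1
  | of i => exact hb i
  | inv_of i _ => rw [map_inv]; exact hi _ (hb i)
  | mul a b ha hb => rw [map_mul]; exact hm _ _ ha hb

lemma blift {ι Γ Δ : Type} [Group Γ] [Group Δ] (g : FreeGroupBasis ι Γ) (f : ι → Δ) (i : ι) :
    g.lift f (g i) = f i := by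
  simp [FreeGroupBasis.lift]

/-- The exponent sum of the `i`-th basis element. -/
def lam {ι Γ : Type} [DecidableEq ι] [Group Γ] (g : FreeGroupBasis ι Γ) (i : ι) :
    Γ →* Multiplicative ℤ :=
  g.lift (fun j => if j = i then Multiplicative.ofAdd 1 else 1)

/-- The exponent sum as an integer. -/
def lamz {ι Γ : Type} [DecidableEq ι] [Group Γ] (g : FreeGroupBasis ι Γ) (i : ι) (h : Γ) : ℤ :=
  Multiplicative.toAdd (lam g i h)

section lamz
variable {ι Γ : Type} [DecidableEq ι] [Group Γ] (g : FreeGroupBasis ι Γ) (i : ι)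

lemma lamz_one : lamz g i 1 = 0 := by simp [lamz]
lemma lamz_mul (a b : Γ) : lamz g i (a * b) = lamz g i a + lamz g i b := by simp [lamz]
lemma lamz_inv (a : Γ) : lamz g i a⁻¹ = -lamz g i a := by simp [lamz]
lemma lamz_basis (j : ι) : lamz g i (g j) = if j = i then 1 else 0 := by
  unfold lamz lam
  rw [blift]
  split_ifs <;> rfl

end lamz

lemma lamz_change {Γ : Type} [Group Γ] (g g' : FreeGroupBasis (Fin 3) Γ) (i : Fin 3) (h : Γ) :
    lamz g i h = ∑ k, lamz g i (g' k) * lamz g' k h := by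
  refine basis_induction (C := fun h => lamz g i h = ∑ k, lamz g i (g' k) * lamz g' k h)
    g' h ?_ ?_ ?_ ?_
  · simp [lamz_one]
  · intro j
    simp [lamz_basis]
  · intro a ha
    rw [lamz_inv, ha, ← Finset.sum_neg_distrib]
    refine Finset.sum_congr rfl (fun k _ => ?_)
    rw [lamz_inv]; ring
  · intro a b ha hb
    rw [lamz_mul, ha, hb, ← Finset.sum_add_distrib]
    refine Finset.sum_congr rfl (fun k _ => ?_)
    rw [lamz_mul]; ring

lemma det_ne {Γ : Type} [Group Γ] (g g' : FreeGroupBasis (Fin 3) Γ) :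
    (((Matrix.of (fun i k => lamz g i (g' k)) : Matrix (Fin 3) (Fin 3) ℤ).det : ℤ) : ZMod 2)
      ≠ 0 := by
  have h1 : (Matrix.of (fun i k => lamz g i (g' k)) : Matrix (Fin 3) (Fin 3) ℤ) *
      (Matrix.of (fun k j => lamz g' k (g j)) : Matrix (Fin 3) (Fin 3) ℤ) = 1 := by
    ext i j
    rw [Matrix.mul_apply]
    simp only [Matrix.of_apply]
    rw [← lamz_change, lamz_basis, Matrix.one_apply]
    simp only [eq_comm]
  have h2 := congrArg Matrix.det h1
  rw [Matrix.det_mul, Matrix.det_one] at h2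
  intro h3
  have h4 := congrArg (Int.cast : ℤ → ZMod 2) h2
  rw [Int.cast_mul, h3, zero_mul] at h4
  exact absurd h4 (by decide)

/-- The first representation of `F₂`. -/
def r1 : F2 →* U4 := FreeGroup.lift ![⟨1, 1, 0, 0, 0, 0⟩, ⟨0, 0, 1, 0, 0, 0⟩]
/-- The second representation of `F₂`. -/
def r2 : F2 →* U4 := FreeGroup.lift ![⟨0, 0, 1, 0, 0, 0⟩, ⟨1, 1, 0, 0, 0, 0⟩]

lemma r1_0 : r1 (FreeGroup.of 0) = ⟨1, 1, 0, 0, 0, 0⟩ := by simp [r1]
lemma r1_1 : r1 (FreeGroup.of 1) = ⟨0, 0, 1, 0, 0, 0⟩ := by simp [r1]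
lemma r2_0 : r2 (FreeGroup.of 0) = ⟨0, 0, 1, 0, 0, 0⟩ := by simp [r2]
lemma r2_1 : r2 (FreeGroup.of 1) = ⟨1, 1, 0, 0, 0, 0⟩ := by simp [r2]

/-- The homomorphism sending the basis to `x^p, x^q, y`. -/
def phi {Γ : Type} [Group Γ] (g : FreeGroupBasis (Fin 3) Γ) (p q : ℕ) : Γ →* F2 :=
  g.lift ![FreeGroup.of 0 ^ p, FreeGroup.of 0 ^ q, FreeGroup.of 1]

lemma q_pow (a : U4) (n : ℕ) : (a ^ n).q = n * a.q := by
  induction n with
  | zero => simp
  | succ n ih => rw [pow_succ, mul_q, ih]; push_cast; ring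

lemma p_pow (a : U4) (n : ℕ) : (a ^ n).p = n * a.p := by
  induction n with
  | zero => simp
  | succ n ih => rw [pow_succ, mul_p, ih]; push_cast; ring

lemma r_pow (a : U4) (n : ℕ) : (a ^ n).r = n * a.r := by
  induction n with
  | zero => simp
  | succ n ih => rw [pow_succ, mul_r, ih]; push_cast; ring

lemma coords {Γ : Type} [Group Γ] (g : FreeGroupBasis (Fin 3) Γ) (p q : ℕ) (h : Γ) :
    (r1 (phi g p q h)).p = p * lamz g 0 h + q * lamz g 1 h ∧
    (r1 (phi g p q h)).q = p * lamz g 0 h + q * lamz g 1 h ∧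
    (r1 (phi g p q h)).r = lamz g 2 h ∧
    (r2 (phi g p q h)).p = lamz g 2 h ∧
    (r2 (phi g p q h)).q = lamz g 2 h ∧
    (r2 (phi g p q h)).r = p * lamz g 0 h + q * lamz g 1 h := by
  refine basis_induction (C := fun h => (r1 (phi g p q h)).p = p * lamz g 0 h + q * lamz g 1 h ∧
    (r1 (phi g p q h)).q = p * lamz g 0 h + q * lamz g 1 h ∧
    (r1 (phi g p q h)).r = lamz g 2 h ∧
    (r2 (phi g p q h)).p = lamz g 2 h ∧
    (r2 (phi g p q h)).q = lamz g 2 h ∧
    (r2 (phi g p q h)).r = p * lamz g 0 h + q * lamz g 1 h) g h ?_ ?_ ?_ ?_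
  · simp [lamz_one]
  · intro j
    fin_cases j
    · simp [phi, blift, lamz_basis, p_pow, q_pow, r_pow, r1_0, r2_0]
    · simp [phi, blift, lamz_basis, p_pow, q_pow, r_pow, r1_0, r2_0]
    · simp [phi, blift, lamz_basis, r1_1, r2_1]
  · rintro a ⟨h1, h2, h3, h4, h5, h6⟩
    refine ⟨?_, ?_, ?_, ?_, ?_, ?_⟩ <;> simp only [map_inv, inv_p, inv_q, inv_r, lamz_inv, *] <;>
      ring
  · rintro a b ⟨h1, h2, h3, h4, h5, h6⟩ ⟨k1, k2, k3, k4, k5, k6⟩
    refine ⟨?_, ?_, ?_, ?_, ?_, ?_⟩ <;> simp only [map_mul, mul_p, mul_q, mul_r, lamz_mul, *] <;>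
      ring

/-- The free basis `x², y, x y x⁻¹` of `G`. -/
noncomputable def gb : FreeGroupBasis (Fin 3) G := (FreeGroupBasis.ofFreeGroup (Fin 3)).map th

lemma gb_apply (i : Fin 3) : gb i = th (FreeGroup.of i) := by
  rw [gb, FreeGroupBasis.map_apply, FreeGroupBasis.ofFreeGroup_apply]

lemma DD_cast (a a' b b' c c' : ℤ) : ((DD a a' b b' c c' : ℤ) : ZMod 2) =
    DD (a : ZMod 2) (a' : ZMod 2) (b : ZMod 2) (b' : ZMod 2) (c : ZMod 2) (c' : ZMod 2) := by
  simp [DD, N1, N2]

lemma exists_pq (g : FreeGroupBasis (Fin 3) G) : ∃ p q : ℕ,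
    DD (p * lamz g 0 (gb 0) + q * lamz g 1 (gb 0)) (lamz g 2 (gb 0))
      (p * lamz g 0 (gb 1) + q * lamz g 1 (gb 1)) (lamz g 2 (gb 1))
      (p * lamz g 0 (gb 2) + q * lamz g 1 (gb 2)) (lamz g 2 (gb 2)) ≠ 0 := by
  have h := det_ne g gb
  rw [Matrix.det_fin_three] at h
  simp only [Matrix.of_apply] at h
  push_cast at h
  rcases zmod_check _ _ _ _ _ _ _ _ _ h with h1 | h1 | h1
  · refine ⟨1, 0, fun h2 => h1 ?_⟩
    have h3 := congrArg (Int.cast : ℤ → ZMod 2) h2
    rw [DD_cast] at h3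
    simpa using h3
  · refine ⟨0, 1, fun h2 => h1 ?_⟩
    have h3 := congrArg (Int.cast : ℤ → ZMod 2) h2
    rw [DD_cast] at h3
    simpa using h3
  · refine ⟨1, 1, fun h2 => h1 ?_⟩
    have h3 := congrArg (Int.cast : ℤ → ZMod 2) h2
    rw [DD_cast] at h3
    simpa using h3

lemma initial_top {F : Type} [Group F] {n : ℕ} (b : FreeGroupBasis (Fin n) F) :
    initial b n = ⊤ := by
  rw [eq_top_iff]
  intro h _
  refine basis_induction (C := fun h => h ∈ initial b n) b h ?_ ?_ ?_ ?_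
  · exact Subgroup.one_mem _
  · intro i
    exact Subgroup.subset_closure ⟨i, i.2, rfl⟩
  · intro a ha
    exact Subgroup.inv_mem _ ha
  · intro a b ha hb
    exact Subgroup.mul_mem _ ha hb

lemma not_echelon {n : ℕ} (g : FreeGroupBasis (Fin n) G)
    (h : EchelonForm g ((H ⊓ G).subgroupOf G)) : False := by
  have e : Fin 3 ≃ Fin n := Equiv.ofFreeGroupEquiv (th.trans g.repr)
  have hn : n = 3 := by simpa using (Fintype.card_congr e).symm
  subst hn
  obtain ⟨p, q, hd⟩ := exists_pq g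
  set K := (H ⊓ G).subgroupOf G with hK
  set S : G → ℤ := fun h => p * lamz g 0 h + q * lamz g 1 h with hS
  set T : G → ℤ := fun h => lamz g 2 h with hT
  change DD (S (gb 0)) (T (gb 0)) (S (gb 1)) (T (gb 1)) (S (gb 2)) (T (gb 2)) ≠ 0 at hd
  set f := phi g p q with hf
  have hco : ∀ h, (r1 (f h)).p = S h ∧ (r1 (f h)).q = S h ∧ (r1 (f h)).r = T h ∧
      (r2 (f h)).p = T h ∧ (r2 (f h)).q = T h ∧ (r2 (f h)).r = S h := coords g p q
  -- the images of the generators of `K`
  have hx : ((r1.prod r2) (f (gb 0))).1.p ≠ 0 ∨ ((r1.prod r2) (f (gb 0))).2.p ≠ 0 := by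
    by_contra hcon
    push Not at hcon
    obtain ⟨h1, h2⟩ := hcon
    simp only [MonoidHom.prod_apply] at h1 h2
    rw [(hco _).1] at h1
    rw [(hco _).2.2.2.1] at h2
    apply hd
    rw [h1, h2]
    simp [DD, N1, N2]
  have hy : (r1.prod r2) (f (W1 (gb 0) (gb 1) (gb 2))) =
      (zz (N1 (S (gb 0)) (T (gb 0)) (S (gb 1)) (T (gb 1)) (S (gb 2)) (T (gb 2))),
        zz (N1 (T (gb 0)) (S (gb 0)) (T (gb 1)) (S (gb 1)) (T (gb 2)) (S (gb 2)))) := by
    rw [map_W1, map_W1]
    apply Prod.ext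
    · simp only [MonoidHom.prod_apply]
      have : (W1 (r1 (f (gb 0)), r2 (f (gb 0))) (r1 (f (gb 1)), r2 (f (gb 1)))
        (r1 (f (gb 2)), r2 (f (gb 2)))).1 = W1 (r1 (f (gb 0))) (r1 (f (gb 1))) (r1 (f (gb 2))) :=
        rfl
      rw [this, W1_U4]
      congr 1
      simp only [(hco _).1, (hco _).2.1, (hco _).2.2.1, N1]
      ring
    · simp only [MonoidHom.prod_apply]
      have : (W1 (r1 (f (gb 0)), r2 (f (gb 0))) (r1 (f (gb 1)), r2 (f (gb 1)))
        (r1 (f (gb 2)), r2 (f (gb 2)))).2 = W1 (r2 (f (gb 0))) (r2 (f (gb 1))) (r2 (f (gb 2))) :=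
        rfl
      rw [this, W1_U4]
      congr 1
      simp only [(hco _).2.2.2.1, (hco _).2.2.2.2.1, (hco _).2.2.2.2.2, N1]
      ring
  have hz : (r1.prod r2) (f (W2 (gb 0) (gb 1) (gb 2))) =
      (zz (N2 (S (gb 0)) (T (gb 0)) (S (gb 1)) (T (gb 1)) (S (gb 2)) (T (gb 2))),
        zz (N2 (T (gb 0)) (S (gb 0)) (T (gb 1)) (S (gb 1)) (T (gb 2)) (S (gb 2)))) := by
    rw [map_W2, map_W2]
    apply Prod.ext
    · simp only [MonoidHom.prod_apply]
      have : (W2 (r1 (f (gb 0)), r2 (f (gb 0))) (r1 (f (gb 1)), r2 (f (gb 1)))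
        (r1 (f (gb 2)), r2 (f (gb 2)))).1 = W2 (r1 (f (gb 0))) (r1 (f (gb 1))) (r1 (f (gb 2))) :=
        rfl
      rw [this, W2_U4]
      congr 1
      simp only [(hco _).1, (hco _).2.1, (hco _).2.2.1, N2]
      ring
    · simp only [MonoidHom.prod_apply]
      have : (W2 (r1 (f (gb 0)), r2 (f (gb 0))) (r1 (f (gb 1)), r2 (f (gb 1)))
        (r1 (f (gb 2)), r2 (f (gb 2)))).2 = W2 (r2 (f (gb 0))) (r2 (f (gb 1))) (r2 (f (gb 2))) :=
        rfl
      rw [this, W2_U4]
      congr 1
      simp only [(hco _).2.2.2.1, (hco _).2.2.2.2.1, (hco _).2.2.2.2.2, N2]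
      ring
  have hd' : N1 (S (gb 0)) (T (gb 0)) (S (gb 1)) (T (gb 1)) (S (gb 2)) (T (gb 2)) *
      N2 (T (gb 0)) (S (gb 0)) (T (gb 1)) (S (gb 1)) (T (gb 2)) (S (gb 2)) -
      N1 (T (gb 0)) (S (gb 0)) (T (gb 1)) (S (gb 1)) (T (gb 2)) (S (gb 2)) *
      N2 (S (gb 0)) (T (gb 0)) (S (gb 1)) (T (gb 1)) (S (gb 2)) (T (gb 2)) ≠ 0 := hd
  have ht1 : th (W1 (FreeGroup.of 0) (FreeGroup.of 1) (FreeGroup.of 2)) =
      W1 (gb 0) (gb 1) (gb 2) := by
    rw [gb_apply, gb_apply, gb_apply]
    exact map_W1 th.toMonoidHom _ _ _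
  have ht2 : th (W2 (FreeGroup.of 0) (FreeGroup.of 1) (FreeGroup.of 2)) =
      W2 (gb 0) (gb 1) (gb 2) := by
    rw [gb_apply, gb_apply, gb_apply]
    exact map_W2 th.toMonoidHom _ _ _
  -- `f` is injective on `K`
  have hinj0 := lift_injective
    ![f (gb 0), f (W1 (gb 0) (gb 1) (gb 2)), f (W2 (gb 0) (gb 1) (gb 2))] (r1.prod r2)
    hx hy hz hd'
  have hlift : ∀ z : P3, FreeGroup.lift
      ![f (gb 0), f (W1 (gb 0) (gb 1) (gb 2)), f (W2 (gb 0) (gb 1) (gb 2))] z =
      f (th (kap z)) := by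
    have : FreeGroup.lift
      ![f (gb 0), f (W1 (gb 0) (gb 1) (gb 2)), f (W2 (gb 0) (gb 1) (gb 2))] =
      f.comp (th.toMonoidHom.comp kap) := by
      ext1 i
      rw [FreeGroup.lift_apply_of]
      change _ = f (th (kap (FreeGroup.of i)))
      fin_cases i
      · change f (gb 0) = f (th (kap (FreeGroup.of 0)))
        rw [kap0, gb_apply]
      · change f (W1 (gb 0) (gb 1) (gb 2)) = f (th (kap (FreeGroup.of 1)))
        rw [kap1, ht1]
      · change f (W2 (gb 0) (gb 1) (gb 2)) = f (th (kap (FreeGroup.of 2)))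
        rw [kap2, ht2]
    intro z
    rw [this]; rfl
  have hinj : ∀ k1 ∈ K, ∀ k2 ∈ K, f k1 = f k2 → k1 = k2 := by
    intro k1 h1 k2 h2 h12
    obtain ⟨z1, rfl⟩ := (mem_K k1).1 h1
    obtain ⟨z2, rfl⟩ := (mem_K k2).1 h2
    rw [← hlift, ← hlift] at h12
    rw [hinj0 h12]
  -- the rank of `K ∩ ⟨g_1, g_2⟩`
  have hle : initial g 2 ≤ (Subgroup.zpowers (FreeGroup.of 0 : F2)).comap f := by
    unfold initial
    rw [Subgroup.closure_le]
    rintro _ ⟨j, hj, rfl⟩
    have hj' : j = 0 ∨ j = 1 := by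
      rcases j with ⟨j, hj3⟩
      simp only at hj
      interval_cases j
      · left; rfl
      · right; rfl
    rw [SetLike.mem_coe, Subgroup.mem_comap]
    rcases hj' with rfl | rfl
    · have : f (g 0) = FreeGroup.of 0 ^ p := by rw [hf, phi, blift]; rfl
      rw [this]
      exact Subgroup.npow_mem_zpowers _ _
    · have : f (g 1) = FreeGroup.of 0 ^ q := by rw [hf, phi, blift]; rfl
      rw [this]
      exact Subgroup.npow_mem_zpowers _ _
  have hrk2 : rk (K ⊓ initial g 2) ≤ 1 := by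
    apply rk_le_one
    rintro k1 ⟨h1, h1'⟩ k2 ⟨h2, h2'⟩
    apply hinj _ (K.mul_mem h1 h2) _ (K.mul_mem h2 h1)
    rw [map_mul, map_mul]
    obtain ⟨a, ha⟩ := hle h1'
    obtain ⟨b, hb⟩ := hle h2'
    simp only at ha hb
    rw [← ha, ← hb]
    exact ((Commute.refl (FreeGroup.of 0 : F2)).zpow_zpow a b).eq
  -- the rank of `K`
  have hrk3 := h 3 (by norm_num) le_rfl
  rw [initial_top, inf_top_eq] at hrk3
  have hrk : rk K ≤ 2 := by
    refine hrk3.trans ?_
    calc rk (K ⊓ initial g (3 - 1)) + 1 ≤ 1 + 1 := by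
          have : rk (K ⊓ initial g (3 - 1)) ≤ 1 := hrk2
          gcongr
      _ = 2 := by norm_num
  have hfin : Finite (IsFreeGroup.Generators K) := by
    unfold rk at hrk
    exact Cardinal.lt_aleph0_iff_finite.1 (hrk.trans_lt (by exact_mod_cast Cardinal.natCast_lt_aleph0 (n := 2)))
  have hcard : Nat.card (IsFreeGroup.Generators K) ≤ 2 := by
    unfold rk at hrk
    rw [← Nat.cast_card] at hrk
    exact_mod_cast hrk
  obtain ⟨u, v, huv⟩ := exists_two hfin hcard
  let F3 : P3 →* K := (th.toMonoidHom.comp kap).codRestrict K (fun z => (mem_K _).2 ⟨z, rfl⟩)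
  have hF3 : Function.Surjective F3 := by
    rintro ⟨k, hk⟩
    obtain ⟨z, hz⟩ := (mem_K k).1 hk
    exact ⟨z, Subtype.ext hz⟩
  have hgen : Subgroup.closure {F3 (FreeGroup.of 0), F3 (FreeGroup.of 1), F3 (FreeGroup.of 2)} =
      (⊤ : Subgroup K) := by
    rw [eq_top_iff]
    have h1 : (⊤ : Subgroup K) = Subgroup.map F3 ⊤ := by
      rw [← MonoidHom.range_eq_map, eq_comm, MonoidHom.range_eq_top]
      exact hF3
    rw [h1, ← FreeGroup.closure_range_of, MonoidHom.map_closure, Subgroup.closure_le]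
    rintro _ ⟨_, ⟨j, rfl⟩, rfl⟩
    apply Subgroup.subset_closure
    fin_cases j
    · left; rfl
    · right; left; rfl
    · right; right; rfl
  have c0 : ((F3 (FreeGroup.of 0) : K) : G) = gb 0 := by
    change th (kap (FreeGroup.of 0)) = _
    rw [kap0, gb_apply]
  have c1 : ((F3 (FreeGroup.of 1) : K) : G) = W1 (gb 0) (gb 1) (gb 2) := by
    change th (kap (FreeGroup.of 1)) = _
    rw [kap1, ht1]
  have c2 : ((F3 (FreeGroup.of 2) : K) : G) = W2 (gb 0) (gb 1) (gb 2) := by
    change th (kap (FreeGroup.of 2)) = _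
    rw [kap2, ht2]
  refine not_two _ _ _ u v ((r1.prod r2).comp (f.comp K.subtype)) hgen huv
    (m := N1 (S (gb 0)) (T (gb 0)) (S (gb 1)) (T (gb 1)) (S (gb 2)) (T (gb 2)))
    (n := N1 (T (gb 0)) (S (gb 0)) (T (gb 1)) (S (gb 1)) (T (gb 2)) (S (gb 2)))
    (k := N2 (S (gb 0)) (T (gb 0)) (S (gb 1)) (T (gb 1)) (S (gb 2)) (T (gb 2)))
    (l := N2 (T (gb 0)) (S (gb 0)) (T (gb 1)) (S (gb 1)) (T (gb 2)) (S (gb 2))) ?_ ?_ ?_ hd'
  · simp only [MonoidHom.comp_apply, Subgroup.subtype_apply, c0]; exact hx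
  · simp only [MonoidHom.comp_apply, Subgroup.subtype_apply, c1]; exact hy
  · simp only [MonoidHom.comp_apply, Subgroup.subtype_apply, c2]; exact hz

/-! ### `H` is an echelon subgroup -/

lemma initial_one (b : FreeGroupBasis (Fin 2) F2) : initial b 1 = Subgroup.zpowers (b 0) := by
  rw [Subgroup.zpowers_eq_closure]
  unfold initial
  congr 1
  ext g
  constructor
  · rintro ⟨j, hj, rfl⟩
    have : j = 0 := by
      apply Fin.ext; simp only [Fin.val_zero]; omega
    rw [this]; rfl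
  · intro hg
    rw [Set.mem_singleton_iff] at hg
    exact ⟨0, by norm_num, hg.symm⟩

/-- A subgroup of `F₂` generated by `b 0` and one more element is in echelon form
with respect to `b`. -/
lemma echelon_of (b : FreeGroupBasis (Fin 2) F2) (s : F2) (K : Subgroup F2)
    (hK : K = Subgroup.closure (Set.range ![b 0, s])) : EchelonForm b K := by
  have hb0 : b 0 ∈ K := by rw [hK]; exact Subgroup.subset_closure ⟨0, rfl⟩
  have hb1 : b 0 ≠ 1 := by
    intro h
    have h1 : b.repr (b 0) = FreeGroup.of 0 := b.repr_apply_coe 0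
    rw [h, map_one] at h1
    exact FreeGroup.of_ne_one (0 : Fin 2) h1.symm
  have hint : K ⊓ initial b 1 = Subgroup.closure (Set.range ![b 0]) := by
    rw [initial_one]
    apply le_antisymm
    · refine inf_le_right.trans ?_
      rw [Subgroup.zpowers_le]
      exact Subgroup.subset_closure ⟨0, rfl⟩
    · rw [Subgroup.closure_le]
      rintro _ ⟨j, rfl⟩
      have : j = 0 := Subsingleton.elim _ _
      rw [this]
      exact ⟨hb0, Subgroup.mem_zpowers _⟩
  intro i hi hi2
  interval_cases i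
  · rw [hint]
    refine (rk_closure_le 1 _).trans ?_
    simp
  · rw [initial_top, inf_top_eq]
    have h1 : rk K ≤ 2 := by
      rw [hK]; exact_mod_cast rk_closure_le 2 _
    have h2 : 1 ≤ rk (K ⊓ initial b (2 - 1)) := by
      refine rk_ne_zero (g := b 0) ⟨hb0, ?_⟩ hb1
      change b 0 ∈ initial b 1
      rw [initial_one]
      exact Subgroup.mem_zpowers _
    calc rk K ≤ 2 := h1
      _ = 1 + 1 := by norm_num
      _ ≤ _ := by gcongr

lemma echelon_H : IsEchelon H :=
  ⟨2, FreeGroupBasis.ofFreeGroup (Fin 2), echelon_of _ w H rfl⟩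

lemma fg_G : G.FG := by
  rw [Subgroup.fg_iff]
  refine ⟨Set.range ![x * x, y, x * y * x⁻¹], ?_, Set.finite_range _⟩
  rw [← FreeGroup.range_lift_eq_closure]
  rfl

/-- There are an echelon subgroup `H` of the free group `F₂` and a finitely generated subgroup `G`
(even of index two) of `F₂` such that `H ∩ G` is not an echelon subgroup of `G`. -/
theorem result : ∃ H G : Subgroup (FreeGroup (Fin 2)), IsEchelon H ∧ G.FG ∧ G.index = 2 ∧
    ¬ IsEchelon ((H ⊓ G).subgroupOf G) :=
  ⟨H, G, echelon_H, fg_G, index_G, fun ⟨_, g, h⟩ => not_echelon g h⟩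

end Pool.Agent.R764.Echelon
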